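import Mathlib

/-!
# MP_2beaeb_nt: solutions of `σ(n) = σ(n + 1)` with given cofactors

Write `n = a p`, `n + 1 = b q` with primes `p ∤ a`, `q ∤ b`. A solution of `σ(n) = σ(n + 1)` satisfies
`n ≤ 2 a b max (σ(a), σ(b))`, unless `a = b + 1` and `a, b` are multiperfect of the same index
`c ≥ 2`; and apart from these there are at most `∑_{a ≤ z} z / a` solutions with `a b ≤ z`.
-/

set_option autoImplicit false

open ArithmeticFunction

namespace Pool.Agent.Results.MP_2beaeb_nt.FixedCofactors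

/-- `a = b + 1` are multiperfect numbers of the same index `c ≥ 2` -/
def Exceptional (a b : ℕ) : Prop :=
  a = b + 1 ∧ ∃ c : ℕ, 2 ≤ c ∧ sigma 1 a = c * a ∧ sigma 1 b = c * b

lemma prime_sig (p : ℕ) (hp : p.Prime) : sigma 1 p = p + 1 := by
  rw [sigma_apply, hp.sum_divisors]
  simp

lemma sig_pos (m : ℕ) (hm : 0 < m) : m ≤ sigma 1 m := by
  rw [sigma_apply]
  have := Finset.single_le_sum (f := fun d => d^1) (fun _ _ => Nat.zero_le _)
    (Nat.mem_divisors_self m hm.ne')
  simpa using this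

lemma sig_gt (m : ℕ) (hm : 1 < m) : m < sigma 1 m := by
  rw [sigma_apply]
  have : ({1, m} : Finset ℕ) ⊆ m.divisors := by
    intro d hd
    simp only [Finset.mem_insert, Finset.mem_singleton] at hd
    rw [Nat.mem_divisors]
    rcases hd with rfl | rfl
    · exact ⟨one_dvd _, by omega⟩
    · exact ⟨dvd_refl _, by omega⟩
  have h2 := Finset.sum_le_sum_of_subset_of_nonneg (f := fun d => d^1) this
    (fun _ _ _ => Nat.zero_le _)
  rw [Finset.sum_pair (by omega)] at h2
  simp only [pow_one] at h2 ⊢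
  omega

/-- the linear equation for `n` -/
lemma linear_eq (n a b p q : ℕ) (h : sigma 1 n = sigma 1 (n + 1)) (hp : p.Prime) (hq : q.Prime)
    (hpa : ¬ p ∣ a) (hqb : ¬ q ∣ b) (hn : n = a * p) (hn' : n + 1 = b * q) :
    ((sigma 1 a : ℕ) * (b : ℤ) - (sigma 1 b : ℕ) * (a : ℤ)) * n =
      (sigma 1 b : ℕ) * (a : ℤ) * (1 + b) - (sigma 1 a : ℕ) * (a : ℤ) * b := by
  have h1 : sigma 1 a * (p + 1) = sigma 1 b * (q + 1) := by
    rw [hn', hn, isMultiplicative_sigma.map_mul_of_coprime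
      ((Nat.Prime.coprime_iff_not_dvd hp).2 hpa).symm,
      isMultiplicative_sigma.map_mul_of_coprime
      ((Nat.Prime.coprime_iff_not_dvd hq).2 hqb).symm, prime_sig p hp, prime_sig q hq] at h
    exact h
  generalize sigma 1 a = A at h1 ⊢
  generalize sigma 1 b = B at h1 ⊢
  have h2 : (A : ℤ) * ((p : ℤ) + 1) = B * ((q : ℤ) + 1) := by exact_mod_cast h1
  have h3 : (n : ℤ) = a * p := by exact_mod_cast hn
  have h4 : (n : ℤ) + 1 = b * q := by exact_mod_cast hn'
  have h5 : (n : ℤ) = b * q - 1 := by linarith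
  have e : ((A : ℤ) * b - B * a) * n = A * b * n - B * a * n := by ring
  rw [e]
  nth_rewrite 1 [h3]
  rw [h5]
  linear_combination (a : ℤ) * b * h2

/-- equal abundancy forces an exceptional pair -/
lemma exceptional_of_zero (n a b p q : ℕ) (hn0 : 0 < n) (h : sigma 1 n = sigma 1 (n + 1))
    (hp : p.Prime) (hq : q.Prime)
    (hpa : ¬ p ∣ a) (hqb : ¬ q ∣ b) (hn : n = a * p) (hn' : n + 1 = b * q)
    (hz : (sigma 1 a : ℕ) * (b : ℤ) - (sigma 1 b : ℕ) * (a : ℤ) = 0) : Exceptional a b := by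
  have hl := linear_eq n a b p q h hp hq hpa hqb hn hn'
  have ha : 0 < a := by
    rcases Nat.eq_zero_or_pos a with h0 | h0
    · rw [h0] at hn; omega
    · exact h0
  have hb : 0 < b := by
    rcases Nat.eq_zero_or_pos b with h0 | h0
    · rw [h0] at hn'; omega
    · exact h0
  have hco : Nat.Coprime a b := by
    have h1 : Nat.Coprime n (n + 1) := by simp
    rw [hn'] at h1
    have h2 : Nat.Coprime (a * p) (b * q) := by rw [← hn]; exact h1
    exact (Nat.Coprime.coprime_mul_right h2).coprime_mul_right_right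
  have hz' : sigma 1 a * b = sigma 1 b * a := by
    have : (sigma 1 a : ℕ) * (b : ℤ) = (sigma 1 b : ℕ) * (a : ℤ) := by linarith
    exact_mod_cast this
  have hd : a ∣ sigma 1 a := by
    have : a ∣ sigma 1 a * b := hz' ▸ Dvd.intro_left _ rfl
    exact hco.dvd_of_dvd_mul_right this
  obtain ⟨c, hc⟩ := hd
  have hcb : sigma 1 b = c * b := by
    rw [hc] at hz'
    have h1 : a * (c * b) = a * sigma 1 b := by
      rw [← mul_assoc, hz', mul_comm]
    exact (Nat.eq_of_mul_eq_mul_left ha h1).symm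
  have hca : sigma 1 a = c * a := by rw [hc, mul_comm]
  have hc0 : 0 < c := by
    rcases Nat.eq_zero_or_pos c with h0 | h0
    · have := sig_pos a ha
      rw [hca, h0] at this; omega
    · exact h0
  rw [hz, zero_mul, hca, hcb] at hl
  have hab : a = b + 1 := by
    push_cast at hl
    have hpos : (0 : ℤ) < (c : ℤ) * a * b := by positivity
    have h1 : ((c : ℤ) * a * b) * ((b : ℤ) + 1 - a) = 0 := by linear_combination -hl
    rcases mul_eq_zero.1 h1 with h2 | h2
    · exact absurd h2 hpos.ne'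
    · have : (a : ℤ) = b + 1 := by linarith
      exact_mod_cast this
  refine ⟨hab, c, ?_, hca, hcb⟩
  by_contra hlt
  have hc1 : c = 1 := by omega
  have := sig_gt a (by omega)
  rw [hca, hc1] at this
  omega

theorem result :
    (∀ n a b p q : ℕ, 0 < n → sigma 1 n = sigma 1 (n + 1) → p.Prime → q.Prime → ¬ p ∣ a →
      ¬ q ∣ b → n = a * p → n + 1 = b * q →
      n ≤ 2 * (a * b) * max (sigma 1 a) (sigma 1 b) ∨ Exceptional a b) ∧
    ∀ (z : ℕ) (S : Finset ℕ),
      (∀ n ∈ S, 0 < n ∧ sigma 1 n = sigma 1 (n + 1) ∧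
        ∃ a b p q : ℕ, p.Prime ∧ q.Prime ∧ ¬ p ∣ a ∧ ¬ q ∣ b ∧ n = a * p ∧ n + 1 = b * q ∧
          a * b ≤ z ∧ ¬ Exceptional a b) →
      S.card ≤ ∑ a ∈ Finset.Icc 1 z, z / a := by
  constructor
  · intro n a b p q hn0 h hp hq hpa hqb hn hn'
    by_cases hz : (sigma 1 a : ℕ) * (b : ℤ) - (sigma 1 b : ℕ) * (a : ℤ) = 0
    · exact Or.inr (exceptional_of_zero n a b p q hn0 h hp hq hpa hqb hn hn' hz)
    left
    have hl := linear_eq n a b p q h hp hq hpa hqb hn hn'
    have hb : 0 < b := by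
      rcases Nat.eq_zero_or_pos b with h0 | h0
      · rw [h0] at hn'; omega
      · exact h0
    have hmA : sigma 1 a ≤ max (sigma 1 a) (sigma 1 b) := le_max_left _ _
    have hmB : sigma 1 b ≤ max (sigma 1 a) (sigma 1 b) := le_max_right _ _
    generalize max (sigma 1 a) (sigma 1 b) = M at *
    generalize sigma 1 a = A at *
    generalize sigma 1 b = B at *
    have hA1 : (A : ℤ) ≤ M := by exact_mod_cast hmA
    have hB1 : (B : ℤ) ≤ M := by exact_mod_cast hmB
    have hb1 : (1 : ℤ) ≤ b := by exact_mod_cast hb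
    have hab0 : (0 : ℤ) ≤ (a : ℤ) * b := by positivity
    have hn0' : (0 : ℤ) ≤ n := by positivity
    have hM0 : (0 : ℤ) ≤ M := by positivity
    have hBa : (B : ℤ) * a * (1 + b) ≤ 2 * ((a : ℤ) * b) * M := by
      have h1 : (a : ℤ) * (1 + b) ≤ 2 * ((a : ℤ) * b) := by nlinarith [(by positivity : (0:ℤ) ≤ a)]
      calc (B : ℤ) * a * (1 + b) = ((a : ℤ) * (1 + b)) * B := by ring
        _ ≤ (2 * ((a : ℤ) * b)) * M := mul_le_mul h1 hB1 (by positivity) (by positivity)
    have hAa : (A : ℤ) * a * b ≤ 2 * ((a : ℤ) * b) * M := by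
      calc (A : ℤ) * a * b = ((a : ℤ) * b) * A := by ring
        _ ≤ (2 * ((a : ℤ) * b)) * M := mul_le_mul (by linarith) hA1 (by positivity) (by positivity)
    have hBp : (0 : ℤ) ≤ (B : ℤ) * a * (1 + b) := by positivity
    have hAp : (0 : ℤ) ≤ (A : ℤ) * a * b := by positivity
    have key : (n : ℤ) ≤ 2 * ((a : ℤ) * b) * M := by
      rcases (by omega : (1 : ℤ) ≤ (A : ℤ) * b - B * a ∨ (A : ℤ) * b - B * a ≤ -1) with hc | hc
      · have h1 := mul_le_mul_of_nonneg_right hc hn0'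
        rw [hl] at h1
        linarith
      · have h1 := mul_le_mul_of_nonneg_right hc hn0'
        rw [hl] at h1
        linarith
    exact_mod_cast key
  · intro z S hS
    classical
    let T : Finset (Σ _ : ℕ, ℕ) := (Finset.Icc 1 z).sigma (fun a => Finset.Icc 1 (z / a))
    have hT : T.card = ∑ a ∈ Finset.Icc 1 z, z / a := by
      simp [T, Finset.card_sigma]
    have hchoose : ∀ n ∈ S, ∃ t ∈ T, ∃ p q : ℕ, p.Prime ∧ q.Prime ∧ ¬ p ∣ t.1 ∧ ¬ q ∣ t.2 ∧
        n = t.1 * p ∧ n + 1 = t.2 * q ∧ ¬ Exceptional t.1 t.2 := by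
      intro n hn
      obtain ⟨h0, h1, a, b, p, q, hp, hq, hpa, hqb, h2, h3, h4, h5⟩ := hS n hn
      have ha : 0 < a := by
        rcases Nat.eq_zero_or_pos a with h0 | h0
        · rw [h0] at h2; omega
        · exact h0
      have hb : 0 < b := by
        rcases Nat.eq_zero_or_pos b with h0 | h0
        · rw [h0] at h3; omega
        · exact h0
      refine ⟨⟨a, b⟩, ?_, p, q, hp, hq, hpa, hqb, h2, h3, h5⟩
      simp only [T, Finset.mem_sigma, Finset.mem_Icc]
      refine ⟨⟨ha, (Nat.le_mul_of_pos_right a hb).trans h4⟩, hb, ?_⟩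
      rw [Nat.le_div_iff_mul_le ha, mul_comm]
      exact h4
    choose! f hfT hf using hchoose
    rw [← hT]
    refine Finset.card_le_card_of_injOn f (fun n hn => hfT n hn) ?_
    intro n hn m hm hnm
    obtain ⟨p, q, hp, hq, hpa, hqb, h1, h2, h3⟩ := hf n hn
    obtain ⟨p', q', hp', hq', hpa', hqb', h1', h2', h3'⟩ := hf m hm
    rw [← hnm] at hpa' hqb' h1' h2'
    have e1 := linear_eq n _ _ p q (hS n hn).2.1 hp hq hpa hqb h1 h2
    have e2 := linear_eq m _ _ p' q' (hS m hm).2.1 hp' hq' hpa' hqb' h1' h2'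
    have hne : (sigma 1 (f n).1 : ℕ) * ((f n).2 : ℤ) - (sigma 1 (f n).2 : ℕ) * ((f n).1 : ℤ) ≠ 0 :=
      fun hz => h3 (exceptional_of_zero n _ _ p q (hS n hn).1 (hS n hn).2.1 hp hq hpa hqb h1 h2 hz)
    have : (n : ℤ) = m := mul_left_cancel₀ hne (e1.trans e2.symm)
    exact_mod_cast this

end Pool.Agent.Results.MP_2beaeb_nt.FixedCofactors
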